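import Pool.Agent.W728.LH.Stms

/-!
# MP_1dfe91_lc: LH-CH, the predicates `SS` for the variables
-/
set_option autoImplicit false
open MvPolynomial Pool.Agent.W728.LH

namespace Pool.Agent.W571.LH

theorem deg_big {P : Type} [Field P] {m : ℕ} {i j : Fin m} (hij : i ≠ j) (N : ℕ) (hN : 2 ≤ N) :
    (X i - X j ^ N : MvPolynomial (Fin m) P) ≠ 0 ∧
      N ≤ (X i - X j ^ N : MvPolynomial (Fin m) P).totalDegree := by
  classical
  have h1 : coeff (Finsupp.single j N) (X i - X j ^ N : MvPolynomial (Fin m) P) = -1 := by
    rw [coeff_sub, coeff_X_pow, if_pos rfl, coeff_X, if_neg, zero_sub]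
    intro e
    have := DFunLike.congr_fun e i
    rw [Finsupp.single_eq_same, Finsupp.single_apply, if_neg (Ne.symm hij)] at this
    exact one_ne_zero this
  have h2 : Finsupp.single j N ∈ (X i - X j ^ N : MvPolynomial (Fin m) P).support := by
    rw [mem_support_iff, h1]; exact neg_ne_zero.2 one_ne_zero
  refine ⟨?_, ?_⟩
  · intro h0; rw [h0] at h2; simp at h2
  · have h3 := le_totalDegree h2
    rw [Finsupp.sum_single_index rfl] at h3
    exact h3

theorem t_CH (hDEC : DEC_stmt) : CH_stmt := by
  intro P _ m hm S hS k
  induction k with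
  | zero =>
    intro hk g
    show S (ext (fun i => (X i : MvPolynomial (Fin m) P)) 0) g ↔ _
    have e : ext (fun i => (X i : MvPolynomial (Fin m) P)) 0 = X ⟨0, hm⟩ := dif_pos hm
    rw [e]
    exact hS g
  | succ k ih =>
    intro hk g
    have ih' := ih (by omega)
    have e0 : ext (fun i => (X i : MvPolynomial (Fin m) P)) 0 = X ⟨0, hm⟩ := dif_pos hm
    have e1 : ext (fun i => (X i : MvPolynomial (Fin m) P)) (k + 1) = X ⟨k + 1, hk⟩ := dif_pos hk
    have hsub : supported P {i : Fin m | i.val ≤ 0} ≤ supported P {i : Fin m | i.val ≤ k} :=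
      supported_mono (fun i hi => le_trans hi (Nat.zero_le k))
    have hmono : supported P {i : Fin m | i.val ≤ k} ≤ supported P {i : Fin m | i.val ≤ k + 1} :=
      supported_mono (fun i hi => Nat.le_succ_of_le hi)
    show (∀ f, S (ext (fun i => (X i : MvPolynomial (Fin m) P)) 0) f → ∃ d,
      SS S (ext (fun i => (X i : MvPolynomial (Fin m) P))) k d ∧
        (ext (fun i => (X i : MvPolynomial (Fin m) P)) (k + 1) - f) ∣ (g - d)) ↔ _
    rw [e0, e1]
    constructor
    · intro H
      let theta : MvPolynomial (Fin m) P →ₐ[P] MvPolynomial (Fin m) P :=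
        aeval (fun j : Fin m => if j.val ≤ k + 1 then X j else 0)
      have hth : ∀ u ∈ supported P {i : Fin m | i.val ≤ k + 1}, theta u = u := by
        intro u hu
        unfold supported at hu
        induction hu using Algebra.adjoin_induction with
        | mem y hy =>
          obtain ⟨i, hi, rfl⟩ := hy
          have hi' : i.val ≤ k + 1 := hi
          show aeval (fun j : Fin m => if j.val ≤ k + 1 then (X j : MvPolynomial (Fin m) P) else 0)
            (X i) = X i
          rw [aeval_X, if_pos hi']
        | algebraMap r => exact theta.commutes r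
        | add a b _ _ iha ihb => rw [map_add, iha, ihb]
        | mul a b _ _ iha ihb => rw [map_mul, iha, ihb]
      have hrange : ∀ u, theta u ∈ supported P {i : Fin m | i.val ≤ k + 1} := by
        intro u
        induction u using MvPolynomial.induction_on with
        | C r =>
          have : theta (C r) = algebraMap P _ r := theta.commutes r
          rw [this]; exact algebraMap_mem _ r
        | add a b iha ihb => rw [map_add]; exact add_mem iha ihb
        | mul_X a i iha =>
          rw [map_mul]
          refine mul_mem iha ?_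
          show aeval (fun j : Fin m => if j.val ≤ k + 1 then (X j : MvPolynomial (Fin m) P) else 0)
            (X i) ∈ _
          rw [aeval_X]
          split_ifs with h
          · rw [X_mem_supported]; exact h
          · exact zero_mem _
      suffices he : g - theta g = 0 by
        rw [sub_eq_zero.1 he]; exact hrange g
      by_contra he
      have hdiv : ∀ f ∈ supported P {i : Fin m | i.val ≤ 0},
          (X ⟨k + 1, hk⟩ - f) ∣ (g - theta g) := by
        intro f hf
        obtain ⟨d, hd, h, hh⟩ := H f ((hS f).2 hf)
        have hd' := (ih' d).1 hd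
        have h1 : theta (g - d) = theta ((X ⟨k + 1, hk⟩ - f) * h) := by rw [hh]
        have hX : theta (X ⟨k + 1, hk⟩) = X ⟨k + 1, hk⟩ :=
          hth _ (by rw [X_mem_supported]; exact Nat.le_refl (k + 1))
        rw [map_sub, map_mul, map_sub, hth d (hmono hd'), hth f (hmono (hsub hf)), hX] at h1
        refine ⟨h - theta h, ?_⟩
        rw [mul_sub, ← hh, ← h1]; ring
      have hne : (⟨k + 1, hk⟩ : Fin m) ≠ ⟨0, hm⟩ := by
        intro e; exact absurd (congrArg Fin.val e) (by simp)
      obtain ⟨hnz, hdeg⟩ := deg_big (P := P) hne ((g - theta g).totalDegree + 2) (by omega)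
      obtain ⟨w, hw⟩ := hdiv (X ⟨0, hm⟩ ^ ((g - theta g).totalDegree + 2))
        (pow_mem (by rw [X_mem_supported]; exact Nat.le_refl 0) _)
      have hw0 : w ≠ 0 := by
        intro h0; rw [h0, mul_zero] at hw; exact he hw
      have htd := congrArg totalDegree hw
      rw [totalDegree_mul_of_isDomain hnz hw0] at htd
      omega
    · intro hg f hf
      obtain ⟨d, hd, h, -, e⟩ := (hDEC P m k hk).1 f (hsub ((hS f).1 hf)) g hg
      exact ⟨d, (ih' d).2 hd, h, by rw [e]; ring⟩

end Pool.Agent.W571.LH
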