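import Pool.Agent.W728.LH.Stms

/-!
# MP_1dfe91_lc: LH-DEC, decomposition for the variables
-/
set_option autoImplicit false
open MvPolynomial

namespace Pool.Agent.W571.LH

theorem t_DEC : Pool.Agent.W728.LH.DEC_stmt := by
  intro P _ m k hk
  have hmono : supported P {i : Fin m | i.val ≤ k} ≤ supported P {i : Fin m | i.val ≤ k + 1} :=
    supported_mono (fun i hi => Nat.le_succ_of_le hi)
  have hx : (X ⟨k + 1, hk⟩ : MvPolynomial (Fin m) P) ∈ supported P {i : Fin m | i.val ≤ k + 1} := by
    rw [X_mem_supported]; exact Nat.le_refl (k + 1)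
  constructor
  · intro f hf g hg
    unfold supported at hg
    induction hg using Algebra.adjoin_induction with
    | mem y hy =>
      obtain ⟨i, hi, rfl⟩ := hy
      rcases Nat.lt_or_ge k i.val with h1 | h1
      · have hi' : i.val ≤ k + 1 := hi
        have e : i = ⟨k + 1, hk⟩ := Fin.ext (by show i.val = k + 1; omega)
        subst e
        exact ⟨f, hf, 1, one_mem _, by ring⟩
      · exact ⟨X i, by rw [X_mem_supported]; exact h1, 0, zero_mem _, by ring⟩
    | algebraMap r => exact ⟨algebraMap _ _ r, algebraMap_mem _ r, 0, zero_mem _, by ring⟩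
    | add a b _ _ iha ihb =>
      obtain ⟨d, hd, h, hh, e⟩ := iha
      obtain ⟨d', hd', h', hh', e'⟩ := ihb
      exact ⟨d + d', add_mem hd hd', h + h', add_mem hh hh', by rw [e, e']; ring⟩
    | mul a b _ _ iha ihb =>
      obtain ⟨d, hd, h, hh, e⟩ := iha
      obtain ⟨d', hd', h', hh', e'⟩ := ihb
      refine ⟨d * d', mul_mem hd hd', d * h' + d' * h + (X ⟨k + 1, hk⟩ - f) * (h * h'), ?_, ?_⟩
      · exact add_mem (add_mem (mul_mem (hmono hd) hh') (mul_mem (hmono hd') hh))
          (mul_mem (sub_mem hx (hmono hf)) (mul_mem hh hh'))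
      · rw [e, e']; ring
  · intro f hf h hmem
    let rho : MvPolynomial (Fin m) P →ₐ[P] MvPolynomial (Fin m) P :=
      aeval (Function.update X ⟨k + 1, hk⟩ f)
    have hrho : ∀ u ∈ supported P {i : Fin m | i.val ≤ k}, rho u = u := by
      intro u hu
      unfold supported at hu
      induction hu using Algebra.adjoin_induction with
      | mem y hy =>
        obtain ⟨i, hi, rfl⟩ := hy
        have hi' : i.val ≤ k := hi
        have hne : i ≠ ⟨k + 1, hk⟩ := by
          intro e; rw [e] at hi'; exact absurd hi' (by simp)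
        show aeval (Function.update X ⟨k + 1, hk⟩ f) (X i) = X i
        rw [aeval_X, Function.update_of_ne hne]
      | algebraMap r => exact rho.commutes r
      | add a b _ _ iha ihb => rw [map_add, iha, ihb]
      | mul a b _ _ iha ihb => rw [map_mul, iha, ihb]
    have h1 : rho ((X ⟨k + 1, hk⟩ - f) * h) = (X ⟨k + 1, hk⟩ - f) * h := hrho _ hmem
    have h2 : rho (X ⟨k + 1, hk⟩) = f := by
      show aeval (Function.update X ⟨k + 1, hk⟩ f) (X ⟨k + 1, hk⟩) = f
      rw [aeval_X, Function.update_self]
    rw [map_mul, map_sub, h2, hrho f hf, sub_self, zero_mul] at h1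
    rcases mul_eq_zero.1 h1.symm with h3 | h3
    · exfalso
      have h4 : (X ⟨k + 1, hk⟩ : MvPolynomial (Fin m) P) ∈ supported P {i : Fin m | i.val ≤ k} := by
        rw [sub_eq_zero.1 h3]; exact hf
      rw [X_mem_supported] at h4
      have h5 : k + 1 ≤ k := h4
      omega
    · exact h3

end Pool.Agent.W571.LH
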